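import Pool.Agent.helper37.CZ.SpecD

/-!
# MP_376aaf_an, row cz:OR2: finiteness of supports along an orbit
-/

set_option autoImplicit false

open scoped Matrix Topology ComplexConjugate
open Filter

namespace Pool.Agent.CZ

theorem OR2_fin1 (c R : ℝ) : {k : ℤ | |c + k| ≤ R}.Finite := by
  apply (Set.finite_Icc (⌈-R - c⌉) (⌊R - c⌋)).subset
  intro k hk
  rw [Set.mem_ofPred_eq] at hk
  obtain ⟨h1, h2⟩ := abs_le.mp hk
  constructor
  · rw [Int.ceil_le]; linarith
  · rw [Int.le_floor]; linarith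

theorem OR2_fin {Q : Type} [Fintype Q] (c : Q → ℝ) (R : ℝ) :
    {l : Q × ℤ | |c l.1 + l.2| ≤ R}.Finite := by
  have h : (⋃ q : Q, (fun k : ℤ => (q, k)) '' {k : ℤ | |c q + k| ≤ R}).Finite :=
    Set.finite_iUnion fun q => (OR2_fin1 (c q) R).image _
  apply h.subset
  rintro ⟨q, k⟩ hk
  exact Set.mem_iUnion.mpr ⟨q, k, hk, rfl⟩

theorem OR2 (h1 : CSM_stmt) : OR2_stmt := by
  intro X _ _ α Q Q' _ _ w h w' h' U K φ hL hF hU x t t'
  obtain ⟨R, hR⟩ := hF.supp
  refine ⟨?_, ?_, ?_, ?_⟩
  · intro i n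
    apply (OR2_fin (fun q => t q + csum α (h q) n x) R).subset
    rintro ⟨q, k⟩ hk
    by_contra hc
    apply hk
    simp only [Set.mem_ofPred_eq, not_le] at hc
    apply hR
    rw [show t q + (k : ℝ) + csum α (h q) n x = t q + csum α (h q) n x + k from by ring]
    exact hc
  · rintro i ⟨q, k⟩
    obtain ⟨x0, -, hx0⟩ := isCompact_univ.exists_isMinOn (s := (Set.univ : Set X)) ⟨x, Set.mem_univ x⟩
      (h q).continuous.continuousOn
    have hδ : 0 < h q x0 := (hL q).2 x0
    have hmin : ∀ y, h q x0 ≤ h q y := fun y => hx0 (Set.mem_univ y)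
    have hS := (h1 X α (h q)).2.2.2.2.1 (h q x0) hmin
    set δ := h q x0 with hδdef
    apply (OR2_fin1 0 ((R + |t q + k|) / δ)).subset
    intro n hn
    by_contra hc
    apply hn
    simp only [Set.mem_ofPred_eq, not_le, zero_add] at hc
    rw [div_lt_iff₀ hδ] at hc
    apply hR
    have hS1 : |(n : ℝ)| * δ ≤ |csum α (h q) n x| := by
      rcases le_total 0 n with hn0 | hn0
      · have h2 := (hS n x).1 hn0
        have h3 : (0 : ℝ) ≤ n := by exact_mod_cast hn0
        rw [abs_of_nonneg h3]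
        exact le_trans h2 (le_abs_self _)
      · have h2 := (hS n x).2 hn0
        have h3 : (n : ℝ) ≤ 0 := by exact_mod_cast hn0
        rw [abs_of_nonpos h3]
        have h4 := neg_le_abs (csum α (h q) n x)
        linarith
    have h5 : |csum α (h q) n x| ≤ |t q + k + csum α (h q) n x| + |t q + k| := by
      have h6 := abs_sub (t q + k + csum α (h q) n x) (t q + k)
      rwa [show t q + k + csum α (h q) n x - (t q + k) = csum α (h q) n x from by ring] at h6
    linarith
  · rintro ⟨q, k⟩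
    obtain ⟨R', hR'⟩ := hU.loc |t q + k|
    apply (OR2_fin t' R').subset
    rintro ⟨q', k'⟩ hk
    by_contra hc
    apply hk
    simp only [Set.mem_ofPred_eq, not_le] at hc
    exact (hR' q q' x _ _).1 le_rfl hc
  · rintro ⟨q', k'⟩
    obtain ⟨R', hR'⟩ := hU.loc |t' q' + k'|
    apply (OR2_fin t R').subset
    rintro ⟨q, k⟩ hk
    by_contra hc
    apply hk
    simp only [Set.mem_ofPred_eq, not_le] at hc
    exact (hR' q q' x _ _).2 le_rfl hc

end Pool.Agent.CZ
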